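import Pool.Agent.H5.TT.Stm

set_option autoImplicit false

open MeasureTheory H5.TT Real

namespace H61.TT

theorem parallelogram (x y w : R3) (t : ℝ) :
    Real.exp (-2 * t * ‖x - w‖ ^ 2) * Real.exp (-2 * t * ‖y - w‖ ^ 2)
      = Real.exp (-t * ‖x - y‖ ^ 2) * Real.exp (-(4 * t) * ‖w - (1 / 2 : ℝ) • (x + y)‖ ^ 2) := by
  rw [← Real.exp_add, ← Real.exp_add]
  congr 1
  have h1 := parallelogram_law_with_norm ℝ (x - w) (y - w)
  have h2 : x - w - (y - w) = x - y := by abel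
  have h3 : x - w + (y - w) = -((2 : ℝ) • (w - (1 / 2 : ℝ) • (x + y))) := by
    module
  rw [h2, h3, norm_neg, norm_smul] at h1
  simp only [Real.norm_ofNat] at h1
  linear_combination t * h1

theorem integral_gauss {t : ℝ} (ht : 0 < t) (m : R3) :
    Integrable (fun w : R3 => Real.exp (-(4 * t) * ‖w - m‖ ^ 2)) ∧
      ∫ w : R3, Real.exp (-(4 * t) * ‖w - m‖ ^ 2) = (π / (4 * t)) ^ (3 / 2 : ℝ) := by
  have h1 : ∫ w : R3, Real.exp (-(4 * t) * ‖w - m‖ ^ 2) = (π / (4 * t)) ^ (3 / 2 : ℝ) := by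
    rw [integral_sub_right_eq_self (fun w : R3 => Real.exp (-(4 * t) * ‖w‖ ^ 2)) m,
      GaussianFourier.integral_rexp_neg_mul_sq_norm (by positivity : 0 < 4 * t)]
    simp
  refine ⟨?_, h1⟩
  by_contra h
  rw [integral_undef h] at h1
  have : 0 < (π / (4 * t)) ^ (3 / 2 : ℝ) := Real.rpow_pos_of_pos (by positivity) _
  linarith

/-- the Gaussian convolution -/
theorem gau {t : ℝ} (ht : 0 < t) (x y : R3) :
    Integrable (fun w : R3 => Real.exp (-2 * t * ‖x - w‖ ^ 2) * Real.exp (-2 * t * ‖y - w‖ ^ 2)) ∧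
    ∫ w : R3, Real.exp (-2 * t * ‖x - w‖ ^ 2) * Real.exp (-2 * t * ‖y - w‖ ^ 2)
      = (π / (4 * t)) ^ (3 / 2 : ℝ) * Real.exp (-t * ‖x - y‖ ^ 2) := by
  obtain ⟨h1, h2⟩ := integral_gauss ht ((1 / 2 : ℝ) • (x + y))
  simp only [parallelogram x y _ t]
  refine ⟨h1.const_mul _, ?_⟩
  rw [integral_const_mul, h2, mul_comm]

/-- the Laplace representation of `1/r` -/
theorem lap {r : ℝ} (hr : 0 < r) :
    IntegrableOn (fun t : ℝ => t ^ (-(1 / 2) : ℝ) * Real.exp (-t * r ^ 2)) (Set.Ioi 0) ∧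
    ∫ t in Set.Ioi (0 : ℝ), t ^ (-(1 / 2) : ℝ) * Real.exp (-t * r ^ 2) = √π / r := by
  have h1 : ∫ t in Set.Ioi (0 : ℝ), t ^ (-(1 / 2) : ℝ) * Real.exp (-t * r ^ 2) = √π / r := by
    have h := Real.integral_rpow_mul_exp_neg_mul_Ioi (a := 1 / 2) (r := r ^ 2) (by norm_num)
      (by positivity)
    rw [Real.Gamma_one_half_eq] at h
    have e1 : ((1 : ℝ) / r ^ 2) ^ (1 / 2 : ℝ) = 1 / r := by
      rw [← Real.sqrt_eq_rpow, one_div, Real.sqrt_inv, Real.sqrt_sq hr.le, one_div]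
    rw [e1] at h
    rw [show √π / r = 1 / r * √π by ring, ← h]
    refine integral_congr_ae (Filter.Eventually.of_forall fun t => ?_)
    show t ^ (-(1 / 2) : ℝ) * Real.exp (-t * r ^ 2) = t ^ ((1 / 2 : ℝ) - 1) * Real.exp (-(r ^ 2 * t))
    rw [show (1 / 2 : ℝ) - 1 = -(1 / 2) by norm_num, show -t * r ^ 2 = -(r ^ 2 * t) by ring]
  refine ⟨?_, h1⟩
  by_contra h
  rw [integral_undef h] at h1
  have : 0 < √π / r := div_pos (Real.sqrt_pos.mpr Real.pi_pos) hr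
  linarith

end H61.TT
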