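import Pool.Agent.H5.TT.Stm

set_option autoImplicit false

open MeasureTheory H5.TT

namespace H61.TT

theorem kin_nonneg {lam : ℝ} {σ : R3 → ℝ} (h : Adm lam σ) : 0 ≤ kin σ := by
  unfold kin
  have h1 : 0 ≤ ∫ x, σ x ^ (5 / 3 : ℝ) :=
    integral_nonneg fun x => Real.rpow_nonneg (h.2.1 x) _
  positivity

/-- `s ↦ e(1/s)/s` is nondecreasing on `(0,∞)`. -/
theorem t_MON (hINF : S_INF) : S_MON := by
  intro k z R hz lam hlam s hs t ht hst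
  rw [Set.mem_Ioi] at hs ht
  obtain ⟨-, hb, he⟩ := hINF k z R hz lam s⁻¹ hlam (inv_pos.mpr hs)
  obtain ⟨hn', -, he'⟩ := hINF k z R hz lam t⁻¹ hlam (inv_pos.mpr ht)
  show s⁻¹ * en z R lam s⁻¹ ≤ t⁻¹ * en z R lam t⁻¹
  rw [he, he']
  refine le_csInf hn' ?_
  rintro x ⟨σ, hσ, rfl⟩
  refine le_trans (csInf_le hb ⟨σ, hσ, rfl⟩) ?_
  rw [inv_inv, inv_inv]
  have h1 : s * kin σ ≤ t * kin σ := mul_le_mul_of_nonneg_right hst (kin_nonneg hσ)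
  linarith

end H61.TT
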